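import Pool.Agent.Lib.MP_13404a_ag.AV.Clo
import Pool.Agent.Lib.MP_13404a_ag.UB.St2

/-!
The differentials defined by a point: closed, regular, independent.
-/

namespace Pool.Agent.Lib.MP_13404a_ag.AV

open SZ UB KaehlerDifferential

namespace Fn

variable {F : Fn} {k K : Type} [Field k] [Algebra ℂ k] [Field K] [Algebra k K] [Algebra ℂ K]
  [IsScalarTower ℂ k K]

omit [Algebra ℂ k] [IsScalarTower ℂ k K] in
lemma IsLog.lift {x : F.G K} {l : F.O → Ω[K⁄ℂ]} (h : IsLog (D ℂ K) x l) (u : Derivation ℂ K K) :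
    IsLog u (F.map (AlgHom.id ℂ K) x) fun f => u.liftKaehlerDifferential (l f) :=
  h.nat (AlgHom.id ℂ K) u.liftKaehlerDifferential.toAddMonoidHom (fun r m => by simp) u
    fun r => by simp

lemma IsLog.isClosed {x : F.G K} {l : F.O → Ω[K⁄ℂ]} (h : IsLog (D ℂ K) x l) (f : F.O) :
    Closed (l f) := fun u v =>
  IsLog.closed (fun a => Derivation.commutator_apply a) (h.lift v) (h.lift u) (h.lift ⁅u, v⁆) f

lemma local_of (O : Subalgebra ℂ K) (hO : ∀ z : K, z ∈ O ∨ z⁻¹ ∈ O) : ValuationRing O :=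
  inferInstanceAs (ValuationRing (⟨O.toSubring, hO⟩ : ValuationSubring K))

lemma IsLog.reg {x : F.G K} {l : F.O → Ω[K⁄ℂ]} (h : IsLog (D ℂ K) x l)
    (hv : ∀ O : Subalgebra ℂ K, (∀ z : K, z ∈ O ∨ z⁻¹ ∈ O) → ∃ x' : F.G O, F.map O.val x' = x)
    (f : F.O) : l f ∈ regAlong ℂ k K := by
  simp only [regAlong, Submodule.mem_iInf]
  intro O hO
  obtain ⟨x', hx⟩ := hv (O.restrictScalars ℂ) hO
  have := local_of (O.restrictScalars ℂ) hO
  obtain ⟨l', hl⟩ := exists_log (D ℂ (O.restrictScalars ℂ)) x'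
  have h1 := hl.nat (O.restrictScalars ℂ).val
    (KaehlerDifferential.map ℂ ℂ (O.restrictScalars ℂ) K).toAddMonoidHom
    (fun r m => by simp; rfl) (D ℂ K) (fun r => by simp)
  rw [hx] at h1
  rw [h.unique h1]
  have h2 : l' f ∈ Submodule.span (O.restrictScalars ℂ) (Set.range (D ℂ (O.restrictScalars ℂ))) := by
    rw [span_range_derivation]
    trivial
  have h3 : ∀ a : O.restrictScalars ℂ, KaehlerDifferential.map ℂ ℂ (O.restrictScalars ℂ) K
      (a • l' f) ∈ Submodule.span ℂ {ω | ∃ f ∈ O, ∃ g ∈ O, ω = f • D ℂ K g} := by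
    generalize l' f = η at h2
    induction h2 using Submodule.span_induction with
    | mem η hη =>
      obtain ⟨g, rfl⟩ := hη
      exact fun a => Submodule.subset_span ⟨a, a.2, g, g.2, by simp; rfl⟩
    | zero => simp
    | add η η' _ _ h4 h5 =>
      intro a
      rw [smul_add, map_add]
      exact add_mem (h4 a) (h5 a)
    | smul c η _ h4 =>
      intro a
      rw [smul_smul]
      exact h4 _
  simpa using h3 1

variable {L : Type} [Field L] [Algebra k L] [Algebra ℂ L] [IsScalarTower ℂ k L]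

omit [Algebra ℂ k] [Algebra ℂ K] [Algebra ℂ L] [IsScalarTower ℂ k K] [IsScalarTower ℂ k L] in
lemma exists_push (σ : K →ₐ[k] L) : ∃ S : Ω[K⁄k] →ₗ[k] Ω[L⁄k],
    (∀ r η, S (r • η) = σ r • S η) ∧ ∀ r, S (D k K r) = D k L (σ r) := by
  let := σ.toAlgebra
  have : IsScalarTower k K L := IsScalarTower.of_algHom σ
  exact ⟨(KaehlerDifferential.map k k K L).restrictScalars k, fun r η => by simp; rfl,
    fun r => by simp; rfl⟩

lemma IsLog.prod {x : F.G K} {l : F.O → Ω[K⁄ℂ]} (h : IsLog (D ℂ K) x l) (s : List (K →ₐ[k] L)) :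
    ∃ S : Ω[K⁄k] →ₗ[k] Ω[L⁄k], IsLog ((D k L).restrictScalars ℂ)
      (s.map fun σ => F.map (σ.restrictScalars ℂ) x).prod
      fun f => S (KaehlerDifferential.map ℂ k K K (l f)) := by
  induction s with
  | nil => exact ⟨0, IsLog.one _⟩
  | cons σ s ih =>
    obtain ⟨S, hS⟩ := ih
    obtain ⟨T, h1, h2⟩ := exists_push σ
    have h3 := h.nat (σ.restrictScalars ℂ)
      (T.toAddMonoidHom.comp (KaehlerDifferential.map ℂ k K K).toAddMonoidHom)
      (fun r m => by simp [h1]) ((D k L).restrictScalars ℂ) (fun r => by simp [h2])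
    exact ⟨T + S, h3.mul hS⟩

omit [Algebra ℂ L] [IsScalarTower ℂ k L] in
lemma indep_D {q : ℕ} {t : Fin q → L} (ht : AlgebraicIndependent k t) :
    LinearIndependent L fun j => D k L (t j) := by
  classical
  have : CharZero k := charZero_of_injective_algebraMap (algebraMap ℂ k).injective
  obtain ⟨s, hs, hb⟩ := exists_isTranscendenceBasis_superset ht.to_subtype_range
  obtain ⟨Dd, hD⟩ := exists_dual hb
  refine Fintype.linearIndependent_iff.2 fun a ha i => ?_
  have h1 := congrArg (Dd ⟨t i, hs ⟨i, rfl⟩⟩).liftKaehlerDifferential ha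
  have h2 : ∀ j, Dd ⟨t i, hs ⟨i, rfl⟩⟩ (t j) = if i = j then 1 else 0 := fun j => by
    have := hD ⟨t i, hs ⟨i, rfl⟩⟩ ⟨t j, hs ⟨j, rfl⟩⟩
    simpa [ht.injective.eq_iff] using this
  simpa [h2] using h1

theorem exists_forms (x : F.G K)
    (hv : ∀ O : Subalgebra ℂ K, (∀ z : K, z ∈ O ∨ z⁻¹ ∈ O) → ∃ x' : F.G O, F.map O.val x' = x)
    (s : List (K →ₐ[k] L)) {q : ℕ} {t : Fin q → L} (ht : AlgebraicIndependent k t)
    (hs : ∀ E : Derivation k L L,
      F.map (inl L L) (s.map fun σ => F.map (σ.restrictScalars ℂ) x).prod =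
        F.map (der (E.restrictScalars ℂ)) (s.map fun σ => F.map (σ.restrictScalars ℂ) x).prod →
      ∀ j, E (t j) = 0) :
    ∃ ω : Fin q → Ω[K⁄ℂ], (∀ i, Closed (ω i)) ∧ (∀ i, ω i ∈ regAlong ℂ k K) ∧
      LinearIndependent k fun i => KaehlerDifferential.map ℂ k K K (ω i) := by
  obtain ⟨l, hl⟩ := exists_log (D ℂ K) x
  obtain ⟨S, hS⟩ := hl.prod s
  obtain ⟨b, hb1, hb2, hb3⟩ := exists_linearIndependent k
    (Set.range fun f => KaehlerDifferential.map ℂ k K K (l f))
  have h1 : ∀ f, S (KaehlerDifferential.map ℂ k K K (l f)) ∈ Submodule.span L (S '' b) := fun f => by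
    have h2 : KaehlerDifferential.map ℂ k K K (l f) ∈ Submodule.span k b :=
      hb2 ▸ Submodule.subset_span ⟨f, rfl⟩
    exact Submodule.span_le_restrictScalars k L _
      (Submodule.map_span S b ▸ Submodule.mem_map_of_mem h2)
  have h3 : ∀ j, D k L (t j) ∈ Submodule.span L (S '' b) := fun j => by
    by_contra h4
    obtain ⟨μ, h5, h6⟩ := Submodule.exists_dual_map_eq_bot_of_notMem h4 inferInstance
    refine h5 (hs (μ.compDer (D k L)) ?_ j)
    have h7 := hS.nat (AlgHom.id ℂ L) μ.toAddMonoidHom (fun r m => by simp)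
      ((μ.compDer (D k L)).restrictScalars ℂ) fun r => rfl
    have h8 : (fun f => μ.toAddMonoidHom (S (KaehlerDifferential.map ℂ k K K (l f)))) = 0 :=
      funext fun f => (Submodule.eq_bot_iff _).1 h6 _ (Submodule.mem_map_of_mem (h1 f))
    rw [h8] at h7
    have h9 := h7.zero
    rwa [F.map_comp, F.map_comp] at h9
  have h4 : LinearIndependent L fun j => (⟨_, h3 j⟩ : Submodule.span L (S '' b)) :=
    LinearIndependent.of_comp (Submodule.span L (S '' b)).subtype (indep_D ht)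
  obtain ⟨e⟩ := (Cardinal.le_def _ _).1
    (h4.cardinal_le_rank.trans ((rank_span_le _).trans Cardinal.mk_image_le))
  choose f hf using fun i => hb1 (e i).2
  refine ⟨fun i => l (f i), fun i => hl.isClosed _, fun i => hl.reg hv _, ?_⟩
  simp only at hf
  simp only [hf]
  exact hb3.comp e e.injective

end Fn

end Pool.Agent.Lib.MP_13404a_ag.AV
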