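import Pool.Agent.Lib.MP_13404a_ag.AV.Log

/-!
Logarithmic derivatives are closed forms.
-/

namespace Pool.Agent.Lib.MP_13404a_ag.AV

open SZ

variable {K : Type} [CommRing K] [Algebra ℂ K]

/-- The derivation `v` acts on both coefficients, with the second infinitesimal. -/
def secE (v : Derivation ℂ K K) : SZ K K →ₐ[ℂ] SZ (SZ K K) (SZ K K) where
  toFun x := ⟨x, ⟨v x.a, v x.b⟩⟩
  map_one' := by ext <;> simp
  map_mul' x y := by ext <;> simp <;> ring
  map_zero' := by ext <;> simp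
  map_add' x y := by ext <;> simp
  commutes' c := by ext <;> simp

/-- The derivation `w` acts with the product of the two infinitesimals. -/
def secW (w : Derivation ℂ K K) : SZ (SZ K K) (SZ K K) →ₐ[ℂ] SZ (SZ K K) (SZ K K) where
  toFun x := ⟨x.a, ⟨x.b.a, x.b.b + w x.a.a⟩⟩
  map_one' := by ext <;> simp
  map_mul' x y := by ext <;> simp <;> ring
  map_zero' := by ext <;> simp
  map_add' x y := by ext <;> simp <;> ring
  commutes' c := by ext <;> simp

/-- The general map `a + b ε ↦ a + u a ε₁ + b ε₂ + u b ε₁ ε₂`. -/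
def secF (u : Derivation ℂ K K) : SZ K K →ₐ[ℂ] SZ (SZ K K) (SZ K K) where
  toFun x := ⟨⟨x.a, u x.a⟩, ⟨x.b, u x.b⟩⟩
  map_one' := by ext <;> simp
  map_mul' x y := by ext <;> simp <;> ring
  map_zero' := by ext <;> simp
  map_add' x y := by ext <;> simp
  commutes' c := by ext <;> simp

variable (K) in
/-- The map `a + b ε ↦ a + b ε₁ ε₂`. -/
def secJ : SZ K K →ₐ[ℂ] SZ (SZ K K) (SZ K K) where
  toFun x := ⟨⟨x.a, 0⟩, ⟨0, x.b⟩⟩
  map_one' := by ext <;> simp
  map_mul' x y := by ext <;> simp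
  map_zero' := by ext <;> simp
  map_add' x y := by ext <;> simp
  commutes' c := by ext <;> simp

variable (K) in
/-- The multiples of the first infinitesimal. -/
def subN : Submodule ℂ (SZ (SZ K K) (SZ K K)) where
  carrier := {x | x.a.a = 0 ∧ x.b.a = 0}
  add_mem' ha hb := ⟨by simp [ha.1, hb.1], by simp [ha.2, hb.2]⟩
  zero_mem' := ⟨rfl, rfl⟩
  smul_mem' c x h := ⟨by simp [Algebra.smul_def, h.1], by simp [Algebra.smul_def, h.2]⟩

namespace Fn

variable {F : Fn}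

lemma exists_hom (φ : F.O →ₐ[ℂ] SZ K K) {l : F.O → K}
    (h : ∀ f, φ f = ⟨algebraMap ℂ K (F.ev f), l f⟩) (v : Derivation ℂ K K) :
    ∃ ψ : F.O →ₐ[ℂ] SZ K K, ∀ f, ψ f = ⟨algebraMap ℂ K (F.ev f), v (l f)⟩ := by
  have hl : ∀ f, l f = (φ f).b := fun f => by rw [h]
  have ha : ∀ f, (φ f).a = algebraMap ℂ K (F.ev f) := fun f => by rw [h]
  refine ⟨⟨⟨⟨⟨fun f => ⟨algebraMap ℂ K (F.ev f), v (l f)⟩, ?_⟩, fun f g => ?_⟩, ?_,
    fun f g => ?_⟩, fun c => ?_⟩, fun _ => rfl⟩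
  · ext <;> simp [hl]
  · ext <;> simp [hl, ha]
  · ext <;> simp [hl]
  · ext <;> simp [hl]
  · ext <;> simp [hl]

theorem IsLog.closed {u v w : Derivation ℂ K K} (hw : ∀ a, w a = v (u a) - u (v a)) {x : F.G K}
    {lu lv lw : F.O → K} (hu : IsLog u x lu) (hv : IsLog v x lv) (hl : IsLog w x lw) (f : F.O) :
    v (lu f) - u (lv f) = lw f := by
  obtain ⟨φu, hu1, hu2⟩ := hu
  obtain ⟨φv, hv1, hv2⟩ := hv
  obtain ⟨φw, hw1, hw2⟩ := hl
  have a1 := congrArg (F.map (secE v)) hu2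
  have a2 := congrArg (F.map (secF 0)) hv2
  have a3 := congrArg (F.map (secF u)) hv2
  have a4 := congrArg (F.map (secE 0)) hu2
  have a5 := congrArg (F.map (secJ K)) hw2
  rw [map_mul, F.map_τ, F.map_comp, F.map_comp] at a1 a2 a3 a4 a5
  have b1 : (secE v).comp (inl K K) = (secF 0).comp (der v) := by ext <;> simp [secE, secF]
  have b2 : (secF u).comp (inl K K) = (secE 0).comp (der u) := by ext <;> simp [secE, secF]
  have b3 : (secE 0).comp (inl K K) = (secF 0).comp (inl K K) := by ext <;> simp [secE, secF]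
  have b4 : (secJ K).comp (inl K K) = (secF 0).comp (inl K K) := by ext <;> simp [secJ, secF]
  have b5 : (secW w).comp ((secF u).comp (der v)) = (secE v).comp (der u) := by
    ext <;> simp [secE, secF, secW, hw]
  have b6 : (secW w).comp ((secF u).comp φv) = (secF u).comp φv := by
    ext <;> simp [secF, secW, hv1]
  have b7 : (secW w).comp ((secE 0).comp φu) = (secE 0).comp φu := by
    ext <;> simp [secE, secW, hu1]
  have b8 : (secW w).comp ((secF 0).comp (inl K K)) = (secJ K).comp (der w) := by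
    ext <;> simp [secJ, secF, secW]
  rw [b1, ← a2] at a1
  rw [b2, ← a4, b3] at a3
  rw [b4] at a5
  have a6 := congrArg (F.map (secW w)) a3
  rw [map_mul, map_mul, F.map_τ, F.map_τ, F.map_comp, F.map_comp, b5, b6, b7, b8, ← a1, ← a5,
    ← mul_assoc, ← mul_assoc, ← mul_assoc] at a6
  have a7 := mul_right_cancel a6
  have hN : ∀ a ∈ subN K, ∀ b ∈ subN K, a * b = 0 := fun a ha b hb => by
    ext <;> simp [ha.1, ha.2, hb.1, hb.2]
  have hN' : ∀ a ∈ LinearMap.ker (fst (SZ K K) (SZ K K)).toLinearMap,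
      ∀ b ∈ LinearMap.ker (fst (SZ K K) (SZ K K)).toLinearMap, a * b = 0 := fun a ha b hb => by
    have ha' : a.a = 0 := ha
    have hb' : b.a = 0 := hb
    ext <;> simp [ha', hb']
  obtain ⟨ψ1, hψ1⟩ := exists_hom φu hu1 v
  obtain ⟨ψ2, hψ2⟩ := exists_hom φv hv1 u
  obtain ⟨χ1, c1, d1⟩ := τ_mul (subN K) hN ((secE 0).comp φu) ((secJ K).comp ψ1)
    (fun f => ⟨by simp [secE, hu1, sub_eq_add_neg], by simp [secE, hu1, sub_eq_add_neg]⟩)
    (fun f => ⟨by simp [secJ, hψ1, sub_eq_add_neg], by simp [secJ, hψ1, sub_eq_add_neg]⟩)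
  obtain ⟨χ2, c2, d2⟩ := τ_mul _ hN' ((secF 0).comp φv) ((secJ K).comp ψ2)
    (fun f => by
      show SZ.a _ = 0
      ext <;> simp [secF, hv1, sub_eq_add_neg])
    (fun f => by
      show SZ.a _ = 0
      ext <;> simp [secJ, hψ2, sub_eq_add_neg])
  obtain ⟨χ3, c3, d3⟩ := τ_mul (subN K) hN ((secJ K).comp ψ2) ((secJ K).comp φw)
    (fun f => ⟨by simp [secJ, hψ2, sub_eq_add_neg], by simp [secJ, hψ2, sub_eq_add_neg]⟩)
    (fun f => ⟨by simp [secJ, hw1, sub_eq_add_neg], by simp [secJ, hw1, sub_eq_add_neg]⟩)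
  have e1 : χ1 = (secE v).comp φu := by
    ext f <;> simp [d1, secE, secJ, hu1, hψ1, sub_eq_add_neg]
  have e2 : χ2 = (secF u).comp φv := by
    ext f <;> simp [d2, secF, secJ, hv1, hψ2, sub_eq_add_neg]
  rw [← e1, ← e2, ← c1, ← c2] at a7
  have a8 : F.τ χ3 = F.τ ((secJ K).comp ψ1) := by
    rw [← c3]
    refine mul_left_cancel (a := F.τ ((secF 0).comp φv) * F.τ ((secE 0).comp φu)) ?_
    calc _ = _ := by ac_rfl
      _ = _ := a7
      _ = _ := by ac_rfl
  have a9 := congrArg (fun x => x.b.b) (d3 f)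
  rw [F.τ_inj _ _ a8] at a9
  simp [secJ, hψ1, hψ2, hw1, sub_eq_add_neg] at a9
  rw [a9]
  ring

end Fn

end Pool.Agent.Lib.MP_13404a_ag.AV
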