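import Mathlib

/-!
Points of a complex group scheme with values in a function field.
-/

namespace Pool.Agent.Lib.MP_13404a_ag.AV

open CategoryTheory AlgebraicGeometry MonoidalCategory CartesianMonoidalCategory MonObj

/-- `Spec R` as a scheme over `ℂ`. -/
noncomputable def sp (R : Type) [CommRing R] [Algebra ℂ R] : Over (Spec (CommRingCat.of ℂ)) :=
  Over.mk (Spec.map (CommRingCat.ofHom (algebraMap ℂ R)))

/-- The morphism of schemes over `ℂ` defined by a homomorphism of algebras. -/
noncomputable def spMap {R S : Type} [CommRing R] [Algebra ℂ R] [CommRing S] [Algebra ℂ S]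
    (f : R →ₐ[ℂ] S) : sp S ⟶ sp R :=
  Over.homMk (Spec.map (CommRingCat.ofHom f.toRingHom)) (by
    change Spec.map _ ≫ Spec.map _ = Spec.map _
    rw [← Spec.map_comp]
    congr 1
    ext c
    exact f.commutes c)

/-- The point `x` of `A` with values in the function field `K / k` of a curve `C` is a rational map
`C → A × Spec k` over `k`. It generates if a sum of conjugates of `x` over `k` is a generic point of
`A × Spec k`, that is, if some sum map `C × ⋯ × C → A × Spec k` is dominant. -/
def Generates (k : Type) [Field k] [Algebra ℂ k] {K : Type} [Field K] [Algebra k K] [Algebra ℂ K]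
    [IsScalarTower ℂ k K] {A : Over (Spec (CommRingCat.of ℂ))} [GrpObj A] (x : sp K ⟶ A) : Prop :=
  ∃ (L : Type) (_ : Field L) (_ : Algebra k L) (_ : Algebra ℂ L) (_ : IsScalarTower ℂ k L)
    (s : List (K →ₐ[k] L)),
    IsDominant (lift (s.map fun σ => spMap (σ.restrictScalars ℂ) ≫ x).prod
      (spMap (IsScalarTower.toAlgHom ℂ k L)) : sp L ⟶ A ⊗ sp k).left

end Pool.Agent.Lib.MP_13404a_ag.AV
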