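import Mathlib

/-!
Dimension and algebraically independent elements.
-/

namespace Pool.Agent.Lib.MP_13404a_ag.AV

open Order CategoryTheory AlgebraicGeometry

lemma exists_gt_of_le_coheight {α : Type} [Preorder α] {a : α} {n : ℕ}
    (h : ((n + 1 : ℕ) : ℕ∞) ≤ coheight a) : ∃ b, a < b ∧ (n : ℕ∞) ≤ coheight b := by
  by_contra! h1
  have h2 := h.trans (coheight_le_coe_iff.2 h1)
  norm_cast at h2
  omega

lemma le_coheight_of_generalizing {A B : Scheme.{0}} (f : B ⟶ A) (hf : GeneralizingMap f) (n : ℕ)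
    (b : B) (h : (n : ℕ∞) ≤ coheight (f b)) : (n : ℕ∞) ≤ coheight b := by
  induction n generalizing b with
  | zero => simp
  | succ n ih =>
    obtain ⟨y, h1, h2⟩ := exists_gt_of_le_coheight h
    obtain ⟨b', h3, rfl⟩ := hf (show y ⤳ f b from h1.le)
    have h4 : b < b' := lt_of_le_not_ge h3 fun h5 =>
      h1.not_ge ((show b ⤳ b' from h5).map f.continuous)
    refine le_trans ?_ (coheight_add_one_le h4)
    push_cast
    gcongr
    exact ih b' h2

lemma exists_indep {k R : Type} [Field k] [CommRing R] [Algebra k R] (n : ℕ) (p : PrimeSpectrum R)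
    (h : (n : ℕ∞) ≤ coheight p) : ∃ t : Fin n → R, ∀ P : MvPolynomial (Fin n) k,
      MvPolynomial.aeval t P ∈ p.asIdeal → P = 0 := by
  induction n generalizing p with
  | zero =>
    refine ⟨0, fun P hP => ?_⟩
    obtain ⟨c, rfl⟩ := MvPolynomial.C_surjective (Fin 0) P
    by_contra h1
    refine p.2.ne_top (Ideal.eq_top_of_isUnit_mem _ hP ?_)
    have h2 : c ≠ 0 := fun e => h1 (by simp [e])
    simpa using (Ne.isUnit h2).map (algebraMap k R)
  | succ n ih =>
    obtain ⟨p', h1, h2⟩ := exists_gt_of_le_coheight h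
    obtain ⟨t, ht⟩ := ih p' h2
    obtain ⟨a, ha, ha'⟩ := SetLike.exists_of_lt (show p.asIdeal < p'.asIdeal from h1)
    have h3 : ∀ G : Polynomial (MvPolynomial (Fin n) k),
        G.eval₂ (MvPolynomial.aeval t).toRingHom a ∈ p.asIdeal → G = 0 := fun G => by
      induction G using Polynomial.degree_lt_wf.induction with
      | _ G ih =>
        intro hG
        by_contra h0
        rw [← Polynomial.divX_mul_X_add G, Polynomial.eval₂_add, Polynomial.eval₂_mul,
          Polynomial.eval₂_X, Polynomial.eval₂_C] at hG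
        have h4 : G.coeff 0 = 0 := ht _ ((Ideal.add_mem_iff_right _
          (Ideal.mul_mem_left _ _ ha)).1 (h1.le hG))
        rw [h4, map_zero, add_zero] at hG
        have h5 := ih _ (Polynomial.degree_divX_lt h0) ((p.2.mem_or_mem hG).resolve_right ha')
        apply h0
        rw [← Polynomial.divX_mul_X_add G, h4, h5]
        simp
    refine ⟨Fin.cons a t, fun P hP => (MvPolynomial.finSuccEquiv k n).injective ?_⟩
    rw [map_zero]
    apply h3
    convert hP using 1
    clear hP
    induction P using MvPolynomial.induction_on with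
    | C c => simp [MvPolynomial.finSuccEquiv_apply]
    | add P Q hP hQ => rw [map_add, map_add, Polynomial.eval₂_add, hP, hQ]
    | mul_X P i hP =>
      rw [map_mul, map_mul, Polynomial.eval₂_mul, hP]
      congr 1
      refine Fin.cases ?_ (fun j => ?_) i
      · simp [MvPolynomial.finSuccEquiv_X_zero]
      · simp [MvPolynomial.finSuccEquiv_X_succ]

lemma exists_le_coheight {α : Type} [Preorder α] {n : ℕ} (h : (n : WithBot ℕ∞) ≤ krullDim α) :
    ∃ a : α, (n : ℕ∞) ≤ coheight a := by
  obtain ⟨l, rfl⟩ := le_krullDim_iff.1 h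
  exact ⟨l.head, length_le_coheight_head⟩

lemma exists_point {A : Scheme.{0}} {n : ℕ} (h : (n : WithBot ℕ∞) ≤ topologicalKrullDim A) :
    ∃ a : A, (n : ℕ∞) ≤ coheight a := by
  let := specializationOrder A
  exact exists_le_coheight (h.trans (krullDim_eq_of_orderIso irreducibleSetEquivPoints).le)

lemma exists_fac {R : CommRingCat.{0}} [IsLocalRing R] {X : Scheme.{0}} (f : Spec R ⟶ X) {z : X}
    (h : f (IsLocalRing.closedPoint R) ⤳ z) :
    ∃ φ : X.presheaf.stalk z ⟶ R, Spec.map φ ≫ X.fromSpecStalk z = f :=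
  ⟨X.presheaf.stalkSpecializes h ≫ Scheme.stalkClosedPointTo f, by
    rw [Spec.map_comp, Category.assoc, Scheme.SpecMap_stalkSpecializes_fromSpecStalk,
      Scheme.Spec_stalkClosedPointTo_fromSpecStalk]⟩

/-- A dominant point of a scheme `B` over `k` that is flat and surjective over `A`. -/
lemma exists_sep {k L : Type} [Field k] [Field L] [Algebra k L] {A B : Scheme.{0}} (f : B ⟶ A)
    [Flat f] [Surjective f] (π : B ⟶ Spec (.of k)) (y : Spec (.of L) ⟶ B) [IsDominant y]
    (hy : y ≫ π = Spec.map (CommRingCat.ofHom (algebraMap k L))) {n : ℕ}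
    (h : (n : WithBot ℕ∞) ≤ topologicalKrullDim A) :
    ∃ t : Fin n → L, AlgebraicIndependent k t ∧ ∀ (T : CommRingCat) (g g' : .of L ⟶ T),
      Spec.map g ≫ y = Spec.map g' ≫ y → ∀ j, g (t j) = g' (t j) := by
  obtain ⟨a, ha⟩ := exists_point h
  obtain ⟨z, rfl⟩ := f.surjective a
  have h1 := le_coheight_of_generalizing f (Flat.generalizingMap f) n z ha
  obtain ⟨p, hp⟩ := exists_le_coheight (α := PrimeSpectrum (B.presheaf.stalk z)) (n := n) (by
    have := ringKrullDim_stalk_eq_coheight z
    rw [ringKrullDim] at this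
    rw [this]
    exact_mod_cast h1)
  have h2 : y (IsLocalRing.closedPoint L) ⤳ z := by
    rw [specializes_iff_mem_closure]
    refine closure_mono ?_ (y.denseRange z)
    rintro _ ⟨w, rfl⟩
    rw [Subsingleton.elim w (IsLocalRing.closedPoint L)]
    rfl
  obtain ⟨φ, hφ⟩ := exists_fac y h2
  let : Algebra k (B.presheaf.stalk z) := (Spec.preimage (B.fromSpecStalk z ≫ π)).hom.toAlgebra
  have h3 : Spec.preimage (B.fromSpecStalk z ≫ π) ≫ φ = CommRingCat.ofHom (algebraMap k L) :=
    Spec.map_injective (by rw [Spec.map_comp, Spec.map_preimage, ← Category.assoc, hφ, hy])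
  let φ' : B.presheaf.stalk z →ₐ[k] L := ⟨φ.hom, fun c => congr($h3 c)⟩
  have h4 : DenseRange (Spec.map φ) := fun w => by
    rw [(B.fromSpecStalk z).isEmbedding.isInducing.closure_eq_preimage_closure_image,
      ← Set.range_comp]
    have := y.denseRange (B.fromSpecStalk z w)
    rwa [← hφ] at this
  have h5 := (PrimeSpectrum.denseRange_comap_iff_ker_le_nilRadical φ.hom).1 h4
  obtain ⟨t, ht⟩ := exists_indep (k := k) n p hp
  refine ⟨fun j => φ' (t j), algebraicIndependent_iff.2 fun P hP => ht P ?_, fun T g g' hg j => ?_⟩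
  · refine nilradical_le_prime p.asIdeal (h5 ?_)
    rw [← MvPolynomial.comp_aeval_apply] at hP
    exact hP
  · rw [← hφ, ← Category.assoc, ← Category.assoc, cancel_mono, ← Spec.map_comp,
      ← Spec.map_comp] at hg
    exact congr($(Spec.map_injective hg) (t j))

end Pool.Agent.Lib.MP_13404a_ag.AV
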