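import Pool.Agent.Lib.MP_13404a_ag.AV.SZ

/-!
The logarithmic derivative of a point.
-/

namespace Pool.Agent.Lib.MP_13404a_ag.AV

namespace SZ

/-- The homomorphism defined by a linear map whose values multiply to zero. -/
noncomputable def sz {M T : Type} [AddCommGroup M] [Module ℂ M] [CommRing T] [Algebra ℂ T]
    (h : M →ₗ[ℂ] T) (hh : ∀ m m', h m * h m' = 0) : SZ ℂ M →ₐ[ℂ] T where
  toFun x := algebraMap ℂ T x.a + h x.b
  map_one' := by simp
  map_mul' x y := by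
    simp only [mul_a, mul_b, map_mul, map_add, map_smul, Algebra.smul_def]
    linear_combination -hh x.b y.b
  map_zero' := by simp
  map_add' x y := by
    simp only [add_a, add_b, map_add]
    ring
  commutes' c := by simp

@[simp] lemma sz_apply {M T : Type} [AddCommGroup M] [Module ℂ M] [CommRing T] [Algebra ℂ T]
    (h : M →ₗ[ℂ] T) (hh : ∀ m m', h m * h m' = 0) (x : SZ ℂ M) :
    sz h hh x = algebraMap ℂ T x.a + h x.b := rfl

end SZ

namespace Fn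

open SZ

variable {F : Fn}

lemma τ_const {T : Type} [CommRing T] [Algebra ℂ T] {φ : F.O →ₐ[ℂ] T}
    (h : ∀ f, φ f = algebraMap ℂ T (F.ev f)) : F.τ φ = 1 := by
  have e : φ = (Algebra.ofId ℂ T).comp F.ev := AlgHom.ext h
  rw [e, ← F.map_τ, F.τ_ev, map_one]

/-- A tangent vector with values in a square-zero submodule, as a point of the universal
extension. -/
noncomputable def tan {T M : Type} [CommRing T] [Algebra ℂ T] [AddCommGroup M] [Module ℂ M]
    (N : Submodule ℂ T) (hN : ∀ a ∈ N, ∀ b ∈ N, a * b = 0) (φ : F.O →ₐ[ℂ] T)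
    (h : ∀ f, φ f - algebraMap ℂ T (F.ev f) ∈ N) (i : N →ₗ[ℂ] M) : F.O →ₐ[ℂ] SZ ℂ M where
  toFun f := ⟨F.ev f, i ⟨_, h f⟩⟩
  map_one' := by
    ext
    · simp
    · simp only [one_b]
      rw [← i.map_zero]
      congr 1
      ext
      simp
  map_mul' f g := by
    ext
    · simp
    · simp only [mul_b, ← map_smul, ← map_add]
      congr 1
      ext
      simp only [map_mul, Submodule.coe_add, Submodule.coe_smul, Algebra.smul_def]
      linear_combination hN _ (h f) _ (h g)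
  map_zero' := by
    ext
    · simp
    · simp only [zero_b]
      rw [← i.map_zero]
      congr 1
      ext
      simp
  map_add' f g := by
    ext
    · simp
    · simp only [add_b, ← map_add]
      congr 1
      ext
      simp only [map_add, Submodule.coe_add]
      ring
  commutes' c := by
    ext
    · simp
    · simp only [alg_b]
      rw [← i.map_zero]
      congr 1
      ext
      simp

/-- The group law is addition on tangent vectors. -/
lemma τ_mul {T : Type} [CommRing T] [Algebra ℂ T] (N : Submodule ℂ T)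
    (hN : ∀ a ∈ N, ∀ b ∈ N, a * b = 0) (φ ψ : F.O →ₐ[ℂ] T)
    (h1 : ∀ f, φ f - algebraMap ℂ T (F.ev f) ∈ N) (h2 : ∀ f, ψ f - algebraMap ℂ T (F.ev f) ∈ N) :
    ∃ χ : F.O →ₐ[ℂ] T, F.τ φ * F.τ ψ = F.τ χ ∧
      ∀ f, χ f = φ f + ψ f - algebraMap ℂ T (F.ev f) := by
  obtain ⟨Y1, hY1⟩ : ∃ Y : F.O →ₐ[ℂ] SZ ℂ (N × N), ∀ f, Y f = ⟨F.ev f, (⟨_, h1 f⟩, 0)⟩ :=
    ⟨tan N hN φ h1 (LinearMap.inl ℂ N N), fun _ => rfl⟩
  obtain ⟨Y2, hY2⟩ : ∃ Y : F.O →ₐ[ℂ] SZ ℂ (N × N), ∀ f, Y f = ⟨F.ev f, (0, ⟨_, h2 f⟩)⟩ :=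
    ⟨tan N hN ψ h2 (LinearMap.inr ℂ N N), fun _ => rfl⟩
  have h0 : F.map (fst ℂ (N × N)) (F.τ Y1 * F.τ Y2) = 1 := by
    rw [map_mul, F.map_τ, F.map_τ, τ_const fun f => by simp [hY1], τ_const fun f => by simp [hY2],
      one_mul]
  obtain ⟨Φ, hΦ⟩ := F.loc (fst ℂ (N × N)) _ h0
  obtain ⟨p1, hp1⟩ : ∃ p : SZ ℂ (N × N) →ₐ[ℂ] T, ∀ x, p x = algebraMap ℂ T x.a + x.b.1 :=
    ⟨sz (N.subtype ∘ₗ LinearMap.fst ℂ N N) fun m m' => hN _ m.1.2 _ m'.1.2, fun _ => rfl⟩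
  obtain ⟨p2, hp2⟩ : ∃ p : SZ ℂ (N × N) →ₐ[ℂ] T, ∀ x, p x = algebraMap ℂ T x.a + x.b.2 :=
    ⟨sz (N.subtype ∘ₗ LinearMap.snd ℂ N N) fun m m' => hN _ m.2.2 _ m'.2.2, fun _ => rfl⟩
  obtain ⟨p, hp⟩ : ∃ p : SZ ℂ (N × N) →ₐ[ℂ] T,
      ∀ x, p x = algebraMap ℂ T x.a + (x.b.1 + x.b.2) :=
    ⟨sz (N.subtype ∘ₗ (LinearMap.fst ℂ N N + LinearMap.snd ℂ N N)) fun m m' =>
      hN _ (m.1 + m.2).2 _ (m'.1 + m'.2).2, fun _ => rfl⟩
  have e0 : (fst ℂ (N × N)).comp Φ = F.ev := F.τ_inj _ _ (by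
    rw [← F.map_τ, hΦ, h0, F.τ_ev])
  have e1 : p1.comp Φ = φ := F.τ_inj _ _ (by
    rw [← F.map_τ, hΦ, map_mul, F.map_τ, F.map_τ, τ_const (φ := p1.comp Y2) fun f => by
      simp [hp1, hY2], mul_one]
    congr 1
    ext f
    simp [hp1, hY1])
  have e2 : p2.comp Φ = ψ := F.τ_inj _ _ (by
    rw [← F.map_τ, hΦ, map_mul, F.map_τ, F.map_τ, τ_const (φ := p2.comp Y1) fun f => by
      simp [hp2, hY1], one_mul]
    congr 1
    ext f
    simp [hp2, hY2])
  refine ⟨p.comp Φ, ?_, fun f => ?_⟩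
  · rw [← F.map_τ, hΦ, map_mul, F.map_τ, F.map_τ]
    congr 2
    · ext f
      simp [hp, hY1]
    · ext f
      simp [hp, hY2]
  · have e3 : (Φ f).a = F.ev f := DFunLike.congr_fun e0 f
    have e4 : p1 (Φ f) = φ f := DFunLike.congr_fun e1 f
    have e5 : p2 (Φ f) = ψ f := DFunLike.congr_fun e2 f
    rw [AlgHom.comp_apply, ← e3, ← e4, ← e5, hp, hp1, hp2]
    ring

variable {R M : Type} [CommRing R] [Algebra ℂ R] [AddCommGroup M] [Module R M] [Module ℂ M]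

/-- `l` is the logarithmic derivative of the point `x` along `D`. -/
def IsLog (D : Derivation ℂ R M) (x : F.G R) (l : F.O → M) : Prop :=
  ∃ φ : F.O →ₐ[ℂ] SZ R M, (∀ f, φ f = ⟨algebraMap ℂ R (F.ev f), l f⟩) ∧
    F.τ φ * F.map (inl R M) x = F.map (der D) x

lemma exists_log [IsLocalRing R] (D : Derivation ℂ R M) (x : F.G R) : ∃ l, IsLog D x l := by
  have h : F.map (fst R M) (F.map (der D) x / F.map (inl R M) x) = 1 := by
    rw [map_div, F.map_comp, F.map_comp, div_eq_one]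
    rfl
  obtain ⟨φ, hφ⟩ := F.loc (fst R M) _ h
  have e : (fst R M).comp φ = (Algebra.ofId ℂ R).comp F.ev := F.τ_inj _ _ (by
    rw [← F.map_τ, hφ, h, τ_const fun _ => rfl])
  refine ⟨fun f => (φ f).b, φ, fun f => ?_, by rw [hφ, div_mul_cancel]⟩
  ext
  · exact DFunLike.congr_fun e f
  · rfl

lemma IsLog.unique {D : Derivation ℂ R M} {x : F.G R} {l l' : F.O → M} (h : IsLog D x l)
    (h' : IsLog D x l') : l = l' := by
  obtain ⟨φ, h1, h2⟩ := h
  obtain ⟨ψ, h3, h4⟩ := h'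
  have e := F.τ_inj _ _ (mul_right_cancel (h2.trans h4.symm))
  funext f
  have := h1 f
  rw [e, h3 f] at this
  exact (congrArg SZ.b this).symm

lemma IsLog.nat {R' M' : Type} [CommRing R'] [Algebra ℂ R'] [AddCommGroup M'] [Module R' M']
    [Module ℂ M'] {D : Derivation ℂ R M} {x : F.G R} {l : F.O → M} (h : IsLog D x l)
    (g : R →ₐ[ℂ] R') (t : M →+ M') (ht : ∀ r m, t (r • m) = g r • t m) (D' : Derivation ℂ R' M')
    (hD : ∀ r, D' (g r) = t (D r)) : IsLog D' (F.map g x) fun f => t (l f) := by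
  obtain ⟨φ, h1, h2⟩ := h
  refine ⟨(SZ.map g t ht).comp φ, fun f => ?_, ?_⟩
  · ext <;> simp [h1]
  · have := congrArg (F.map (SZ.map g t ht)) h2
    rw [map_mul, F.map_τ, F.map_comp, F.map_comp] at this
    have e1 : (inl R' M').comp g = (SZ.map g t ht).comp (inl R M) := by ext <;> simp
    have e2 : (der D').comp g = (SZ.map g t ht).comp (der D) := by ext <;> simp [hD]
    rw [F.map_comp, F.map_comp, e1, e2, this]

lemma IsLog.one (D : Derivation ℂ R M) : IsLog D (1 : F.G R) 0 :=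
  ⟨(Algebra.ofId ℂ _).comp F.ev, fun _ => rfl, by rw [τ_const fun _ => rfl]; simp⟩

lemma IsLog.mul {D : Derivation ℂ R M} {x y : F.G R} {l l' : F.O → M} (h : IsLog D x l)
    (h' : IsLog D y l') : IsLog D (x * y) (l + l') := by
  obtain ⟨φ, h1, h2⟩ := h
  obtain ⟨ψ, h3, h4⟩ := h'
  obtain ⟨χ, h5, h6⟩ := τ_mul (LinearMap.ker (fst R M).toLinearMap)
    (fun a ha b hb => by
      have ha' : a.a = 0 := ha
      have hb' : b.a = 0 := hb
      ext <;> simp [ha', hb']) φ ψ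
    (fun f => by simp [h1, sub_eq_add_neg]) (fun f => by simp [h3, sub_eq_add_neg])
  refine ⟨χ, fun f => ?_, ?_⟩
  · rw [h6, h1, h3]
    ext <;> simp [sub_eq_add_neg]
  · rw [map_mul, map_mul, ← h2, ← h4, ← h5]
    exact mul_mul_mul_comm _ _ _ _

lemma IsLog.zero {D : Derivation ℂ R M} {x : F.G R} (h : IsLog D x 0) :
    F.map (inl R M) x = F.map (der D) x := by
  obtain ⟨φ, h1, h2⟩ := h
  rwa [τ_const fun f => h1 f, one_mul] at h2

end Fn

end Pool.Agent.Lib.MP_13404a_ag.AV
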