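import Mathlib

/-!
Square-zero extensions and the abstract functor of points of a commutative group with a local ring
at the origin.
-/

namespace Pool.Agent.Lib.MP_13404a_ag.AV

/-- The square-zero extension of `R` by `M`. -/
@[ext] structure SZ (R M : Type) where
  a : R
  b : M

namespace SZ

variable {R M : Type} [CommRing R] [AddCommGroup M] [Module R M]

instance : Add (SZ R M) := ⟨fun x y => ⟨x.a + y.a, x.b + y.b⟩⟩
instance : Mul (SZ R M) := ⟨fun x y => ⟨x.a * y.a, x.a • y.b + y.a • x.b⟩⟩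
instance : Neg (SZ R M) := ⟨fun x => ⟨-x.a, -x.b⟩⟩
instance : Zero (SZ R M) := ⟨⟨0, 0⟩⟩
instance : One (SZ R M) := ⟨⟨1, 0⟩⟩

omit [Module R M] in
@[simp] lemma add_a (x y : SZ R M) : (x + y).a = x.a + y.a := rfl
omit [Module R M] in
@[simp] lemma add_b (x y : SZ R M) : (x + y).b = x.b + y.b := rfl
@[simp] lemma mul_a (x y : SZ R M) : (x * y).a = x.a * y.a := rfl
@[simp] lemma mul_b (x y : SZ R M) : (x * y).b = x.a • y.b + y.a • x.b := rfl
omit [Module R M] in
@[simp] lemma neg_a (x : SZ R M) : (-x).a = -x.a := rfl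
omit [Module R M] in
@[simp] lemma neg_b (x : SZ R M) : (-x).b = -x.b := rfl
omit [Module R M] in
@[simp] lemma zero_a : (0 : SZ R M).a = 0 := rfl
omit [Module R M] in
@[simp] lemma zero_b : (0 : SZ R M).b = 0 := rfl
omit [Module R M] in
@[simp] lemma one_a : (1 : SZ R M).a = 1 := rfl
omit [Module R M] in
@[simp] lemma one_b : (1 : SZ R M).b = 0 := rfl

instance : CommRing (SZ R M) :=
  CommRing.ofMinimalAxioms
    (fun x y z => by ext <;> simp [add_assoc])
    (fun x => by ext <;> simp)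
    (fun x => by ext <;> simp)
    (fun x y z => by
      ext
      · simp [mul_assoc]
      · simp only [mul_a, mul_b, smul_add, smul_smul, mul_comm z.a]
        rw [mul_comm y.a z.a]
        abel)
    (fun x y => by ext <;> simp [mul_comm, add_comm])
    (fun x => by ext <;> simp)
    (fun x y z => by
      ext
      · simp [mul_add]
      · simp only [mul_b, add_a, add_b, smul_add, add_smul]
        abel)

variable (M) in
/-- The inclusion of the ring. -/
def inlR : R →+* SZ R M where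
  toFun r := ⟨r, 0⟩
  map_one' := rfl
  map_mul' x y := by ext <;> simp
  map_zero' := rfl
  map_add' x y := by ext <;> simp

variable [Algebra ℂ R]

noncomputable instance : Algebra ℂ (SZ R M) := ((inlR M).comp (algebraMap ℂ R)).toAlgebra

@[simp] lemma alg_a (c : ℂ) : (algebraMap ℂ (SZ R M) c).a = algebraMap ℂ R c := rfl
@[simp] lemma alg_b (c : ℂ) : (algebraMap ℂ (SZ R M) c).b = 0 := rfl

variable (R M) in
/-- The inclusion of the ring. -/
def inl : R →ₐ[ℂ] SZ R M := ⟨inlR M, fun _ => rfl⟩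

@[simp] lemma inl_a (r : R) : (inl R M r).a = r := rfl
@[simp] lemma inl_b (r : R) : (inl R M r).b = 0 := rfl

variable (R M) in
/-- The projection to the ring. -/
def fst : SZ R M →ₐ[ℂ] R where
  toFun x := x.a
  map_one' := rfl
  map_mul' _ _ := rfl
  map_zero' := rfl
  map_add' _ _ := rfl
  commutes' _ := rfl

@[simp] lemma fst_apply (x : SZ R M) : fst R M x = x.a := rfl

omit [Algebra ℂ R] in
lemma isUnit_of {x : SZ R M} (h : IsUnit x.a) : IsUnit x := by
  obtain ⟨u, hu⟩ := h.exists_right_inv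
  refine IsUnit.of_mul_eq_one ⟨u, -(u * u) • x.b⟩ ?_
  ext
  · simpa using hu
  · simp only [mul_b, one_b, smul_smul]
    rw [← add_smul, mul_neg, ← mul_assoc, hu]
    simp

instance : IsLocalHom (fst R M) := ⟨fun _ h => isUnit_of h⟩

instance [IsLocalRing R] : IsLocalRing (SZ R M) := by
  have : Nontrivial (SZ R M) := ⟨0, 1, fun h => zero_ne_one (congrArg SZ.a h)⟩
  refine IsLocalRing.of_isUnit_or_isUnit_one_sub_self fun x => ?_
  refine (IsLocalRing.isUnit_or_isUnit_one_sub_self x.a).imp isUnit_of fun h => isUnit_of ?_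
  rwa [sub_eq_add_neg] at h ⊢

/-- Functoriality. -/
def map {R' M' : Type} [CommRing R'] [AddCommGroup M'] [Module R' M'] [Algebra ℂ R']
    (g : R →ₐ[ℂ] R') (h : M →+ M') (hh : ∀ r m, h (r • m) = g r • h m) :
    SZ R M →ₐ[ℂ] SZ R' M' where
  toFun x := ⟨g x.a, h x.b⟩
  map_one' := by ext <;> simp
  map_mul' x y := by ext <;> simp [hh]
  map_zero' := by ext <;> simp
  map_add' x y := by ext <;> simp
  commutes' c := by ext <;> simp

@[simp] lemma map_a {R' M' : Type} [CommRing R'] [AddCommGroup M'] [Module R' M'] [Algebra ℂ R']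
    (g : R →ₐ[ℂ] R') (h : M →+ M') (hh : ∀ r m, h (r • m) = g r • h m) (x : SZ R M) :
    (map g h hh x).a = g x.a := rfl

@[simp] lemma map_b {R' M' : Type} [CommRing R'] [AddCommGroup M'] [Module R' M'] [Algebra ℂ R']
    (g : R →ₐ[ℂ] R') (h : M →+ M') (hh : ∀ r m, h (r • m) = g r • h m) (x : SZ R M) :
    (map g h hh x).b = h x.b := rfl

variable [Module ℂ M]

/-- The section defined by a derivation. -/
def der (D : Derivation ℂ R M) : R →ₐ[ℂ] SZ R M where
  toFun r := ⟨r, D r⟩
  map_one' := by ext <;> simp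
  map_mul' x y := by ext <;> simp
  map_zero' := by ext <;> simp
  map_add' x y := by ext <;> simp
  commutes' c := by ext <;> simp

@[simp] lemma der_a (D : Derivation ℂ R M) (r : R) : (der D r).a = r := rfl
@[simp] lemma der_b (D : Derivation ℂ R M) (r : R) : (der D r).b = D r := rfl

end SZ

/-- The points of a commutative group functor with the local ring `O` at the origin. -/
structure Fn where
  O : Type
  [ring : CommRing O]
  [alg : Algebra ℂ O]
  G : (R : Type) → [CommRing R] → [Algebra ℂ R] → Type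
  [grp : ∀ (R : Type) [CommRing R] [Algebra ℂ R], CommGroup (G R)]
  map : ∀ {R R' : Type} [CommRing R] [Algebra ℂ R] [CommRing R'] [Algebra ℂ R'],
    (R →ₐ[ℂ] R') → G R →* G R'
  map_comp : ∀ {R R' R'' : Type} [CommRing R] [Algebra ℂ R] [CommRing R'] [Algebra ℂ R']
    [CommRing R''] [Algebra ℂ R''] (f : R →ₐ[ℂ] R') (g : R' →ₐ[ℂ] R'') (x : G R),
    map g (map f x) = map (g.comp f) x
  τ : ∀ {R : Type} [CommRing R] [Algebra ℂ R], (O →ₐ[ℂ] R) → G R
  map_τ : ∀ {R R' : Type} [CommRing R] [Algebra ℂ R] [CommRing R'] [Algebra ℂ R']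
    (f : R →ₐ[ℂ] R') (φ : O →ₐ[ℂ] R), map f (τ φ) = τ (f.comp φ)
  τ_inj : ∀ {R : Type} [CommRing R] [Algebra ℂ R] (φ ψ : O →ₐ[ℂ] R), τ φ = τ ψ → φ = ψ
  ev : O →ₐ[ℂ] ℂ
  τ_ev : τ ev = 1
  loc : ∀ {R R' : Type} [CommRing R] [Algebra ℂ R] [CommRing R'] [Algebra ℂ R'] [IsLocalRing R]
    [IsLocalRing R'] (p : R →ₐ[ℂ] R') [IsLocalHom p] (y : G R), map p y = 1 → ∃ φ, τ φ = y

attribute [instance] Fn.ring Fn.alg Fn.grp

end Pool.Agent.Lib.MP_13404a_ag.AV
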