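import Pool.Agent.Lib.MP_13404a_ag.AV.Defs
import Pool.Agent.Lib.MP_13404a_ag.AV.Dim
import Pool.Agent.Lib.MP_13404a_ag.AV.Alg

/-!
The functor of points of an abelian variety, and the bound.
-/

namespace Pool.Agent.Lib.MP_13404a_ag.AV

open CategoryTheory AlgebraicGeometry MonoidalCategory CartesianMonoidalCategory MonObj UB
open scoped IntermediateField

section

variable {R R' R'' : Type} [CommRing R] [Algebra ℂ R] [CommRing R'] [Algebra ℂ R'] [CommRing R'']
  [Algebra ℂ R'']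

lemma spMap_left (f : R →ₐ[ℂ] R') :
    (spMap f).left = Spec.map (CommRingCat.ofHom f.toRingHom) := rfl

lemma spMap_comp (f : R →ₐ[ℂ] R') (g : R' →ₐ[ℂ] R'') : spMap g ≫ spMap f = spMap (g.comp f) :=
  Over.OverMorphism.ext (Spec.map_comp (CommRingCat.ofHom f.toRingHom)
    (CommRingCat.ofHom g.toRingHom)).symm

variable (A : Over (Spec (CommRingCat.of ℂ))) [GrpObj A]

/-- The unit section. -/
noncomputable def uni : Spec (CommRingCat.of ℂ) ⟶ A.left := (1 : sp ℂ ⟶ A).left

/-- The local ring at the origin. -/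
def Loc : Type := A.left.presheaf.stalk (uni A (IsLocalRing.closedPoint ℂ))

noncomputable instance : CommRing (Loc A) :=
  inferInstanceAs (CommRing (A.left.presheaf.stalk (uni A (IsLocalRing.closedPoint ℂ))))

/-- The canonical morphism from the local scheme. -/
noncomputable def fromLoc : Spec (CommRingCat.of (Loc A)) ⟶ A.left :=
  A.left.fromSpecStalk (uni A (IsLocalRing.closedPoint ℂ))

instance : Mono (fromLoc A) :=
  inferInstanceAs (Mono (A.left.fromSpecStalk (uni A (IsLocalRing.closedPoint ℂ))))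

noncomputable instance : Algebra ℂ (Loc A) := (Spec.preimage (fromLoc A ≫ A.hom)).hom.toAlgebra

/-- The canonical point with values in the local ring. -/
noncomputable def can : sp (Loc A) ⟶ A :=
  Over.homMk (fromLoc A) (Spec.map_preimage (fromLoc A ≫ A.hom)).symm

variable {A} in
lemma exists_alg (y : sp R ⟶ A) (φ : CommRingCat.of (Loc A) ⟶ CommRingCat.of R)
    (h : Spec.map φ ≫ fromLoc A = y.left) : ∃ ψ : Loc A →ₐ[ℂ] R, spMap ψ ≫ can A = y := by
  have h3 : Spec.preimage (fromLoc A ≫ A.hom) ≫ φ = CommRingCat.ofHom (algebraMap ℂ R) :=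
    Spec.map_injective (by
      rw [Spec.map_comp, Spec.map_preimage, ← Category.assoc, h]
      exact Over.w y)
  exact ⟨⟨φ.hom, fun c => congr($h3 c)⟩, Over.OverMorphism.ext h⟩

lemma exists_ev : ∃ ψ : Loc A →ₐ[ℂ] ℂ, spMap ψ ≫ can A = 1 :=
  exists_alg 1 _ (Scheme.Spec_stalkClosedPointTo_fromSpecStalk (uni A))

lemma exists_loc [IsLocalRing R] [IsLocalRing R'] (p : R →ₐ[ℂ] R') [IsLocalHom p] (y : sp R ⟶ A)
    (h : spMap p ≫ y = 1) : ∃ ψ : Loc A →ₐ[ℂ] R, spMap ψ ≫ can A = y := by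
  have : IsLocalHom (CommRingCat.ofHom p.toRingHom).hom :=
    ⟨fun a ha => IsLocalHom.map_nonunit (f := p) a ha⟩
  obtain ⟨y', hy⟩ : ∃ y' : Spec (CommRingCat.of R) ⟶ A.left, y' = y.left := ⟨_, rfl⟩
  have h1 : Spec.map (CommRingCat.ofHom p.toRingHom) ≫ y' =
      Spec.map (CommRingCat.ofHom (Algebra.ofId ℂ R').toRingHom) ≫ uni A := by
    rw [hy]
    exact congrArg CommaMorphism.left (h.trans (comp_one (spMap (Algebra.ofId ℂ R'))).symm)
  have h2 : y' (IsLocalRing.closedPoint R) = uni A (IsLocalRing.closedPoint ℂ) :=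
    (congrArg y' (Spec_closedPoint (f := CommRingCat.ofHom p.toRingHom)).symm).trans
      ((Scheme.Hom.comp_apply _ _ _).symm.trans ((congr($h1 (IsLocalRing.closedPoint R'))).trans
      ((Scheme.Hom.comp_apply _ _ _).trans (congrArg (uni A) (Subsingleton.elim _ _)))))
  obtain ⟨φ, hφ⟩ := exists_fac y' (specializes_of_eq h2)
  exact exists_alg y φ (hφ.trans hy)

/-- The functor of points. -/
noncomputable def fn [IsCommMonObj A] : Fn where
  O := Loc A
  G R _ _ := sp R ⟶ A
  grp _ _ _ := Hom.commGroup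
  map f := ⟨⟨fun x => spMap f ≫ x, comp_one _⟩, comp_mul _⟩
  map_comp f g x := by
    change spMap g ≫ spMap f ≫ x = spMap _ ≫ x
    rw [← Category.assoc, spMap_comp]
  τ φ := spMap φ ≫ can A
  map_τ f φ := by
    change spMap f ≫ spMap φ ≫ can A = _
    rw [← Category.assoc, spMap_comp]
  τ_inj φ ψ h := by
    have h1 : Spec.map (CommRingCat.ofHom φ.toRingHom) ≫ fromLoc A =
        Spec.map (CommRingCat.ofHom ψ.toRingHom) ≫ fromLoc A := congrArg CommaMorphism.left h
    rw [cancel_mono] at h1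
    ext a
    exact congr($(Spec.map_injective h1) a)
  ev := (exists_ev A).choose
  τ_ev := (exists_ev A).choose_spec
  loc p _ y h := exists_loc A p y h

end

lemma exists_lift {K : Type} [Field K] [Algebra ℂ K] {A : Over (Spec (CommRingCat.of ℂ))}
    [IsProper A.hom] (x : sp K ⟶ A) (O : Subalgebra ℂ K) (hO : ∀ z : K, z ∈ O ∨ z⁻¹ ∈ O) :
    ∃ x' : sp O ⟶ A, spMap O.val ≫ x' = x := by
  have := Fn.local_of O hO
  have : IsFractionRing O K :=
    inferInstanceAs (IsFractionRing (⟨O.toSubring, hO⟩ : ValuationSubring K) K)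
  have h : ValuativeCriterion.Existence A.hom :=
    (UniversallyClosed.eq_valuativeCriterion.le _ _ A.hom inferInstance).1
  obtain ⟨⟨l, h1, h2⟩⟩ := (h
    { R := O, K := K, i₁ := x.left, i₂ := (sp O).hom
      commSq := ⟨(Over.w x).trans (Over.w (spMap O.val)).symm⟩ }).exists_lift
  exact ⟨Over.homMk l h2, Over.OverMorphism.ext h1⟩

lemma exists_sep' {k L : Type} [Field k] [Algebra ℂ k] [Field L] [Algebra k L] [Algebra ℂ L]
    [IsScalarTower ℂ k L] {A : Over (Spec (CommRingCat.of ℂ))} (y : sp L ⟶ A)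
    (hy : IsDominant (lift y (spMap (IsScalarTower.toAlgHom ℂ k L)) : sp L ⟶ A ⊗ sp k).left) {q : ℕ}
    (hq : (q : WithBot ℕ∞) ≤ topologicalKrullDim A.left) :
    ∃ t : Fin q → L, AlgebraicIndependent k t ∧ ∀ E : Derivation k L L,
      spMap (SZ.inl L L) ≫ y = spMap (SZ.der (E.restrictScalars ℂ)) ≫ y → ∀ j, E (t j) = 0 := by
  have : Flat (sp k).hom := by
    change Flat (Spec.map _)
    infer_instance
  have : Surjective (sp k).hom := ⟨Function.surjective_to_subsingleton (α := Spec (.of k))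
    (β := Spec (.of ℂ)) _⟩
  have : Flat (fst A (sp k)).left := by dsimp; infer_instance
  have : Surjective (fst A (sp k)).left := by dsimp; infer_instance
  obtain ⟨t, ht, h1⟩ := @exists_sep k L _ _ _ _ _ (fst A (sp k)).left _ _ (snd A (sp k)).left
    (lift y (spMap (IsScalarTower.toAlgHom ℂ k L)) : sp L ⟶ A ⊗ sp k).left hy
    (congrArg CommaMorphism.left (lift_snd y (spMap (IsScalarTower.toAlgHom ℂ k L)))) _ hq
  refine ⟨t, ht, fun E hE j => ?_⟩
  have h2 : spMap (SZ.inl L L) ≫ lift y (spMap (IsScalarTower.toAlgHom ℂ k L)) =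
      spMap (SZ.der (E.restrictScalars ℂ)) ≫ lift y (spMap (IsScalarTower.toAlgHom ℂ k L)) := by
    rw [comp_lift, comp_lift, spMap_comp, spMap_comp, hE]
    congr 2
    ext <;> simp
  exact (congrArg SZ.b (h1 _ (CommRingCat.ofHom (SZ.inl L L).toRingHom)
    (CommRingCat.ofHom (SZ.der (E.restrictScalars ℂ)).toRingHom)
    (congrArg CommaMorphism.left h2) j)).symm

theorem exists_forms {k K : Type} [Field k] [Algebra ℂ k] [Field K] [Algebra k K] [Algebra ℂ K]
    [IsScalarTower ℂ k K] (A : Over (Spec (CommRingCat.of ℂ))) [GrpObj A] [IsProper A.hom]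
    [GeometricallyIntegral A.hom] (x : sp K ⟶ A) (hx : Generates k x) {q : ℕ}
    (hq : (q : WithBot ℕ∞) ≤ topologicalKrullDim A.left) :
    ∃ ω : Fin q → Ω[K⁄ℂ], (∀ i, Closed (ω i)) ∧ (∀ i, ω i ∈ regAlong ℂ k K) ∧
      LinearIndependent k fun i => KaehlerDifferential.map ℂ k K K (ω i) := by
  have := isCommMonObj_of_isProper_of_geometricallyIntegral A
  obtain ⟨L, _, _, _, _, s, hs⟩ := hx
  obtain ⟨t, ht, h1⟩ := exists_sep' _ hs hq
  exact Fn.exists_forms (F := fn A) x (exists_lift x) s ht h1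

theorem main {k K : Type} [Field k] [IsAlgClosed k] [Algebra ℂ k] [Field K] [Algebra k K]
    [Algebra ℂ K] [IsScalarTower ℂ k K] (hk : Algebra.trdeg ℂ k < Cardinal.aleph0)
    (hK : ∃ x : K, Transcendental k x ∧ FiniteDimensional k⟮x⟯ K) (hn : ¬ Isotrivial k K)
    (A : Over (Spec (CommRingCat.of ℂ))) [GrpObj A] [IsProper A.hom]
    [GeometricallyIntegral A.hom] (x : sp K ⟶ A) (hx : Generates k x) {q : ℕ}
    (hq : (q : WithBot ℕ∞) ≤ topologicalKrullDim A.left) :
    12 * q ≤ min (8 * Module.finrank k (regAlong k k K) + 84)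
      (9 * Module.finrank k (regAlong k k K) + 36) := by
  obtain ⟨ω, h1, h2, h3⟩ := exists_forms A x hx hq
  obtain ⟨δ, hδ⟩ := exists_der_stm hk
  have h4 := UB.main hk hK hn ω h1 h2 h3
  have h5 := UB.main' δ hδ hK hn ω (fun i v u _ _ => h1 i v u) h2 h3
  omega

end Pool.Agent.Lib.MP_13404a_ag.AV
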